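import Pool.Agent.GY7.Main

set_option autoImplicit false

/-!
# MP_29f565_co: all graphs of girth at least seven and maximum degree at least eight

The Griggs–Yeh conjecture for every finite graph of girth at least seven and maximum degree
`Δ ≥ 8`; and for every graph of girth at least seven an `L(2,1)`-labelling of span at most
`(3 Δ² + 7 Δ + 18) / 4`.
-/

namespace Pool.Agent.Results.MP_29f565_co.GirthSeven

open GY7

/-- Every finite graph of girth at least seven has an `L(2,1)`-labelling with labels at most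
`(3 Δ² + 7 Δ + 18) / 4`, and at most `Δ²` if the maximum degree `Δ` is at least eight. -/
theorem result : ∀ (V : Type) [Fintype V] [DecidableEq V] (G : SimpleGraph V)
    [DecidableRel G.Adj],
    7 ≤ G.egirth →
    ∃ f : V → ℕ,
      (8 ≤ G.maxDegree → ∀ v, f v ≤ G.maxDegree ^ 2) ∧
      (∀ v, 4 * f v ≤ 3 * G.maxDegree ^ 2 + 7 * G.maxDegree + 18) ∧
      (∀ u v, G.Adj u v → 2 ≤ ((f u : ℤ) - (f v : ℤ)).natAbs) ∧
      (∀ u v w, u ≠ v → G.Adj u w → G.Adj v w → f u ≠ f v) := by
  intro V _ _ G _ hgirth
  have hg : GY64.GirthGe G 7 := by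
    intro v c hc
    have h1 := SimpleGraph.le_egirth.mp hgirth v c hc
    exact_mod_cast h1
  have hG := noShort_of_girth hg
  set D := G.maxDegree with hD
  have hdeg : ∀ v, G.degree v ≤ D := fun v => G.degree_le_maxDegree v
  obtain ⟨f, h1, h2, h3⟩ := labelling G (t := (3 * D ^ 2 + 7 * D + 14) / 12) hG hdeg (by omega)
  refine ⟨f, fun h8 v => (h1 v).trans ?_, fun v => ?_, h2, h3⟩
  · rcases Nat.lt_or_ge D 9 with h | h
    · have : D = 8 := by omega
      rw [this]; norm_num
    · have h4 : 9 * D ≤ D ^ 2 := by nlinarith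
      omega
  · have := h1 v
    omega

end Pool.Agent.Results.MP_29f565_co.GirthSeven
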