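import Pool.Agent.GYD.Final

set_option autoImplicit false

/-!
# MP_29f565_co: the Griggs-Yeh conjecture for every maximum degree `Δ ≥ 10 ^ 8`
-/

namespace Pool.Agent.Results.MP_29f565_co.LargeDegree

open Finset

/-- Let `D ≥ 10 ^ 8`. Every finite simple graph of maximum degree at most `D` has a labelling of its
vertices with labels in `0, ..., D ^ 2` such that adjacent vertices have labels differing by at
least two and distinct vertices with a common neighbour have different labels. In particular
(`D = G.maxDegree`) the Griggs-Yeh conjecture holds for every maximum degree at least `10 ^ 8`. -/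
theorem result : ∀ (D : ℕ), 10 ^ 8 ≤ D →
    ∀ (V : Type) [Fintype V] [DecidableEq V] (G : SimpleGraph V) [DecidableRel G.Adj],
      G.maxDegree ≤ D →
      ∃ f : V → ℕ,
        (∀ v, f v ≤ D ^ 2) ∧
        (∀ u v, G.Adj u v → 2 ≤ ((f u : ℤ) - (f v : ℤ)).natAbs) ∧
        (∀ u v w, u ≠ v → G.Adj u w → G.Adj v w → f u ≠ f v) := by
  intro D hD V _ _ G _ hG
  have hdeg : ∀ v, (GYD.gn G univ v).card ≤ D := by
    intro v
    have h1 : GYD.gn G univ v = G.neighborFinset v := by
      ext u
      simp
    rw [h1, SimpleGraph.card_neighborFinset_eq_degree]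
    exact (G.degree_le_maxDegree v).trans hG
  obtain ⟨φ, hφ⟩ := GYD.labelling G D hD hdeg
  refine ⟨φ, fun v => hφ.le v (mem_univ _), ?_, ?_⟩
  · intro u v huv
    have := hφ.adj u (mem_univ _) v (mem_univ _) huv
    omega
  · intro u v w huv h1 h2
    exact hφ.ne u (mem_univ _) v (mem_univ _) ⟨huv, Or.inr ⟨w, h1, h2.symm⟩⟩

end Pool.Agent.Results.MP_29f565_co.LargeDegree
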