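import Pool.Agent.Lib_helper64.GY.LG3

set_option autoImplicit false

/-!
# MP_29f565_co: all graphs of maximum degree three and large girth

Every finite graph of maximum degree at most three and girth at least `1102` has an
`L(2,1)`-labelling with labels `0, …, 9`.
-/

namespace Pool.Agent.Results.MP_29f565_co.LargeGirth

open GY64

/-- The Griggs–Yeh bound for all graphs of maximum degree three and girth at least `1102`. -/
theorem result : ∀ (V : Type) [Fintype V] [DecidableEq V] (G : SimpleGraph V)
    [DecidableRel G.Adj],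
    G.maxDegree ≤ 3 →
    1102 ≤ G.egirth →
    ∃ f : V → ℕ,
      (∀ v, f v ≤ 9) ∧
      (∀ u v, G.Adj u v → 2 ≤ ((f u : ℤ) - (f v : ℤ)).natAbs) ∧
      (∀ u v w, u ≠ v → G.Adj u w → G.Adj v w → f u ≠ f v) := by
  intro V _ _ G _ hmax hgirth
  have hd : ∀ v, (G.neighborSet v).ncard = G.degree v := by
    intro v
    rw [Set.ncard_eq_toFinset_card', ← SimpleGraph.card_neighborFinset_eq_degree]
    rfl
  have hg : GirthGe G 1102 := by
    intro v c hc
    have h1 := SimpleGraph.le_egirth.mp hgirth v c hc
    exact_mod_cast h1
  obtain ⟨f, h1, h2, h3⟩ := labelling_large_girth G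
    (fun v => by rw [hd]; exact (G.degree_le_maxDegree v).trans hmax) hg
  refine ⟨f, h1, ?_, h3⟩
  intro u v huv
  have := h2 u v huv
  unfold Far at this
  omega

end Pool.Agent.Results.MP_29f565_co.LargeGirth
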