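import Pool.Agent.Lib_helper64.GY.Main

set_option autoImplicit false

/-!
# MP_29f565_co: subcubic graphs with a matching whose removal leaves no bad short cycle

Let `G` be a finite graph of maximum degree at most three, and let `M` be a matching of `G`
covering all vertices of degree three, such that every cycle which is a component of `G - M` has
length divisible by three or at least `482`.  Then `G` has an `L(2,1)`-labelling with labels
`0, …, 9`.
-/

namespace Pool.Agent.Results.MP_29f565_co.MatchingCycles

open GY64

/-- The Griggs–Yeh bound for maximum degree three, for graphs with a suitable matching. -/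
theorem result : ∀ (V : Type) [Fintype V] [DecidableEq V] (G : SimpleGraph V)
    [DecidableRel G.Adj] (M : G.Subgraph),
    G.maxDegree ≤ 3 →
    M.IsMatching →
    (∀ v, G.degree v = 3 → v ∈ M.verts) →
    (∀ c : (G.deleteEdges M.edgeSet).ConnectedComponent,
      (∀ v ∈ c.supp, ((G.deleteEdges M.edgeSet).neighborSet v).ncard = 2) →
      3 ∣ c.supp.ncard ∨ 482 ≤ c.supp.ncard) →
    ∃ f : V → ℕ,
      (∀ v, f v ≤ 9) ∧
      (∀ u v, G.Adj u v → 2 ≤ ((f u : ℤ) - (f v : ℤ)).natAbs) ∧
      (∀ u v w, u ≠ v → G.Adj u w → G.Adj v w → f u ≠ f v) := by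
  intro V _ _ G _ M hmax hM hcov hcyc
  have hd : ∀ v, (G.neighborSet v).ncard = G.degree v := by
    intro v
    rw [Set.ncard_eq_toFinset_card', ← SimpleGraph.card_neighborFinset_eq_degree]
    rfl
  obtain ⟨f, h1, h2, h3⟩ := labelling_of_matching G M
    (fun v => by rw [hd]; exact (G.degree_le_maxDegree v).trans hmax) hM
    (fun v hv => hcov v (by rw [← hd]; exact hv)) hcyc
  refine ⟨f, h1, ?_, h3⟩
  intro u v huv
  have := h2 u v huv
  unfold Far at this
  omega

end Pool.Agent.Results.MP_29f565_co.MatchingCycles
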